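import Pool.Agent.DBP.MainP

namespace Pool.Agent.Results.MP_5e0a3c_co.LargeBicliqueOut

open Finset

/-- The subdigraph induced by `S` has no directed cycle: no vertex can be reached from itself by
a nonempty directed walk inside `S`. -/
def AcyclicOn {V : Type*} (A : V → V → Prop) (S : Set V) : Prop :=
  ∀ v, ¬ Relation.TransGen (fun x y => x ∈ S ∧ y ∈ S ∧ A x y) v v

/-- `K` induces a complete digraph. -/
def IsBiclique {V : Type*} (A : V → V → Prop) (K : Finset V) : Prop :=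
  ∀ u ∈ K, ∀ v ∈ K, u ≠ v → A u v

theorem result (k Δ : ℕ) (hk : 3 ≤ k) (hΔ : (k + 466) * (2 * k + 937) + 3 * k < k * Δ)
    {V : Type*} [Fintype V] (A : V → V → Prop) (hloop : ∀ v, ¬ A v v)
    (hout : ∀ v, {u | A v u}.ncard ≤ Δ)
    (hbic : ∀ K : Finset V, IsBiclique A K → K.card + (467 + k) ≤ Δ) :
    ∃ φ : V → Fin (Δ - 1), ∀ i, AcyclicOn A {v | φ v = i} := by
  classical
  have h1 : ∀ v, DBK.outd A v univ ≤ Δ := by
    intro v
    have := hout v
    rw [Set.ncard_eq_toFinset_card'] at this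
    unfold DBK.outd
    convert this using 2
    ext y
    simp
  obtain ⟨φ, hφ, hac⟩ := DBP.mainP (A := A) hk hloop hΔ h1 (fun K hK => hbic K hK)
  refine ⟨fun v => ⟨φ v, hφ v (mem_univ v)⟩, fun i => ?_⟩
  have h3 := hac i.1
  intro v hv
  refine h3 v ?_
  refine Relation.TransGen.mono (fun x y h => ⟨⟨mem_univ _, ?_⟩, ⟨mem_univ _, ?_⟩, h.2.2⟩) _ _ hv
  · exact congrArg Fin.val h.1
  · exact congrArg Fin.val h.2.1

end Pool.Agent.Results.MP_5e0a3c_co.LargeBicliqueOut
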