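import Mathlib

namespace Pool.Agent.Results.MP_5e0a3c_co.NoAcyclicTriple

open Finset

/-- The subdigraph induced by `S` has no directed cycle: no vertex can be reached from itself by
a nonempty directed walk inside `S`. -/
def AcyclicOn {V : Type*} (A : V → V → Prop) (S : Set V) : Prop :=
  ∀ v, ¬ Relation.TransGen (fun x y => x ∈ S ∧ y ∈ S ∧ A x y) v v

/-- `K` induces a complete digraph. -/
def IsBiclique {V : Type*} (A : V → V → Prop) (K : Finset V) : Prop :=
  ∀ u ∈ K, ∀ v ∈ K, u ≠ v → A u v

/-- The digraph contains `H_k`: a directed triangle `a → b → c → a` and a disjoint complete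
digraph `K` on `k - 2` vertices, with all arcs in both directions between them. -/
def ContainsH {V : Type*} (A : V → V → Prop) (k : ℕ) : Prop :=
  ∃ (a b c : V) (K : Finset V), a ≠ b ∧ b ≠ c ∧ c ≠ a ∧ a ∉ K ∧ b ∉ K ∧ c ∉ K ∧
    K.card = k - 2 ∧ IsBiclique A K ∧ A a b ∧ A b c ∧ A c a ∧
    ∀ y ∈ K, (A a y ∧ A y a) ∧ (A b y ∧ A y b) ∧ (A c y ∧ A y c)

theorem acyclicOn_of_rank {V : Type*} {A : V → V → Prop} {S : Set V} (f : V → ℕ)
    (h : ∀ x ∈ S, ∀ y ∈ S, A x y → f y < f x) : AcyclicOn A S := by
  intro v hv
  have key : ∀ x y, Relation.TransGen (fun x y => x ∈ S ∧ y ∈ S ∧ A x y) x y → f y < f x := by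
    intro x y hxy
    induction hxy with
    | single h1 => exact h _ h1.1 _ h1.2.1 h1.2.2
    | tail _ h1 ih => exact lt_trans (h _ h1.1 _ h1.2.1 h1.2.2) ih
  exact lt_irrefl _ (key v v hv)

theorem digon_of_sink {V : Type*} {A : V → V → Prop} (hloop : ∀ v, ¬ A v v)
    (htriple : ∀ a b c : V, a ≠ b → b ≠ c → c ≠ a → ¬ AcyclicOn A {a, b, c})
    {v u w : V} (huv : u ≠ v) (hwv : w ≠ v) (huw : u ≠ w) (h1 : ¬ A v u) (h2 : ¬ A v w) :
    A u w := by
  classical
  by_contra h
  refine htriple v u w huv.symm huw hwv (acyclicOn_of_rank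
    (fun x => if x = v then 0 else if x = u then 1 else 2) ?_)
  intro x hx y hy hxy
  simp only [Set.mem_insert_iff, Set.mem_singleton_iff] at hx hy
  rcases hx with rfl | rfl | rfl <;> rcases hy with rfl | rfl | rfl
  · exact absurd hxy (hloop _)
  · exact absurd hxy h1
  · exact absurd hxy h2
  · simp [huv]
  · exact absurd hxy (hloop _)
  · exact absurd hxy h
  · simp only [if_neg hwv]
    split_ifs <;> omega
  · simp [hwv, huw.symm, huv]
  · exact absurd hxy (hloop _)

theorem triple_cases {V : Type*} {A : V → V → Prop} (hloop : ∀ v, ¬ A v v)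
    (htriple : ∀ a b c : V, a ≠ b → b ≠ c → c ≠ a → ¬ AcyclicOn A {a, b, c})
    {a b c : V} (hab : a ≠ b) (hbc : b ≠ c) (hca : c ≠ a) :
    (A a b ∧ A b a) ∨ (A b c ∧ A c b) ∨ (A c a ∧ A a c) ∨ (A a b ∧ A b c ∧ A c a) ∨
      (A b a ∧ A c b ∧ A a c) := by
  have h1 : ¬ A a b → ¬ A a c → A b c ∧ A c b := fun h h' =>
    ⟨digon_of_sink hloop htriple hab.symm hca hbc h h',
      digon_of_sink hloop htriple hca hab.symm hbc.symm h' h⟩
  have h2 : ¬ A b a → ¬ A b c → A a c ∧ A c a := fun h h' =>
    ⟨digon_of_sink hloop htriple hab hbc.symm hca.symm h h',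
      digon_of_sink hloop htriple hbc.symm hab hca h' h⟩
  have h3 : ¬ A c a → ¬ A c b → A a b ∧ A b a := fun h h' =>
    ⟨digon_of_sink hloop htriple hca.symm hbc hab h h',
      digon_of_sink hloop htriple hbc hca.symm hab.symm h' h⟩
  tauto


section core

variable {V : Type*} [Fintype V] [DecidableEq V] {A : V → V → Prop}

open Classical in
/-- The non-out-neighbours of `v`. -/
noncomputable def nonOut (A : V → V → Prop) (v : V) : Finset V :=
  univ.filter (fun u => u ≠ v ∧ ¬ A v u)

theorem mem_nonOut {v u : V} : u ∈ nonOut A v ↔ u ≠ v ∧ ¬ A v u := by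
  classical
  simp [nonOut]

theorem nonOut_biclique (hloop : ∀ v, ¬ A v v)
    (htriple : ∀ a b c : V, a ≠ b → b ≠ c → c ≠ a → ¬ AcyclicOn A {a, b, c}) (v : V) :
    IsBiclique A (nonOut A v) := by
  intro u hu w hw huw
  rw [mem_nonOut] at hu hw
  exact digon_of_sink hloop htriple hu.1 hw.1 huw hu.2 hw.2

open Classical in
theorem card_nonOut (hloop : ∀ v, ¬ A v v) (v : V) :
    (nonOut A v).card + (univ.filter (fun u => A v u)).card + 1 = Fintype.card V := by
  have h1 : (nonOut A v) ∪ (univ.filter (fun u => A v u)) ∪ {v} = univ := by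
    ext u
    simp only [mem_union, mem_nonOut, mem_filter, mem_univ, true_and, mem_singleton, iff_true]
    tauto
  have h2 : Disjoint (nonOut A v) (univ.filter (fun u => A v u)) := by
    rw [Finset.disjoint_left]
    intro u hu hu'
    rw [mem_nonOut] at hu
    simp only [mem_filter, mem_univ, true_and] at hu'
    exact hu.2 hu'
  have h3 : Disjoint ((nonOut A v) ∪ (univ.filter (fun u => A v u))) {v} := by
    rw [Finset.disjoint_singleton_right, mem_union, mem_nonOut]
    simp only [mem_filter, mem_univ, true_and]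
    rintro (h | h)
    · exact h.1 rfl
    · exact hloop v h
  have h4 : Fintype.card V = (((nonOut A v) ∪ (univ.filter (fun u => A v u))) ∪ {v}).card := by
    rw [h1, Finset.card_univ]
  rw [h4, Finset.card_union_of_disjoint h3, Finset.card_union_of_disjoint h2,
    Finset.card_singleton]

/-- There is no digraph on at least `2Δ - 1` vertices. -/
theorem large_case (Δ : ℕ) (hΔ : 9 ≤ Δ) (hloop : ∀ v, ¬ A v v)
    (hout : ∀ v, {u | A v u}.ncard ≤ Δ)
    (hbic : ∀ K : Finset V, IsBiclique A K → K.card ≤ Δ - 1)
    (htriple : ∀ a b c : V, a ≠ b → b ≠ c → c ≠ a → ¬ AcyclicOn A {a, b, c}) :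
    Fintype.card V ≤ 2 * Δ - 2 := by
  classical
  by_contra hn
  push Not at hn
  have hout' : ∀ v, (univ.filter (fun u => A v u)).card ≤ Δ := by
    intro v
    have := hout v
    rwa [Set.ncard_eq_toFinset_card', Set.toFinset_ofPred] at this
  set n := Fintype.card V with hndef
  have hB : ∀ v, n ≤ (nonOut A v).card + Δ + 1 := by
    intro v
    have h1 := card_nonOut (A := A) hloop v
    have h2 := hout' v
    omega
  -- a maximum biclique
  obtain ⟨I, hI, hImax⟩ : ∃ I : Finset V, IsBiclique A I ∧ ∀ K, IsBiclique A K → K.card ≤ I.card := by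
    obtain ⟨I, hI, hmax⟩ := Finset.exists_max_image (univ.filter (fun K : Finset V => IsBiclique A K))
      Finset.card ⟨∅, Finset.mem_filter.2 ⟨mem_univ _, fun u hu => absurd hu (by simp)⟩⟩
    simp only [mem_filter, mem_univ, true_and] at hI hmax
    exact ⟨I, hI, hmax⟩
  have hα : I.card ≤ Δ - 1 := hbic I hI
  have hα2 : ∀ v, (nonOut A v).card ≤ I.card := fun v => hImax _ (nonOut_biclique hloop htriple v)
  have hJ : (univ \ I).card = n - I.card := by
    rw [Finset.card_sdiff_of_subset (Finset.subset_univ _), Finset.card_univ]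
  have hIn : I.card ≤ n := Finset.card_le_univ I
  -- the complement is not a biclique
  have hJnot : ¬ IsBiclique A (univ \ I) := by
    intro h
    have := hbic _ h
    omega
  simp only [IsBiclique, not_forall] at hJnot
  obtain ⟨w, hw, w', hw', hww', hnot⟩ := hJnot
  have hwI : w ∉ I := by simpa using hw
  have hwI' : w' ∉ I := by simpa using hw'
  -- nonOut of a vertex of I lies in J
  have hBI : ∀ u ∈ I, nonOut A u ⊆ univ \ I := by
    intro u hu x hx
    rw [mem_nonOut] at hx
    simp only [mem_sdiff, mem_univ, true_and]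
    intro hxI
    exact hx.2 (hI u hu x hxI hx.1.symm)
  -- every vertex outside I has a non-out-neighbour in I
  have hne : ∀ x, x ∉ I → ∃ u ∈ I, u ∈ nonOut A x := by
    intro x hx
    by_contra hcon
    push Not at hcon
    -- all arcs x → I
    have h1 : ∀ u ∈ I, A x u := by
      intro u hu
      by_contra h
      exact hcon u hu (mem_nonOut.2 ⟨fun h' => hx (h' ▸ hu), h⟩)
    -- some u in I with no arc u → x
    obtain ⟨u, hu, hux⟩ : ∃ u ∈ I, ¬ A u x := by
      by_contra hc
      push Not at hc
      have : IsBiclique A (insert x I) := by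
        intro a ha b hb hab
        rw [mem_insert] at ha hb
        rcases ha with rfl | ha
        · rcases hb with rfl | hb
          · exact absurd rfl hab
          · exact h1 b hb
        · rcases hb with rfl | hb
          · exact hc a ha
          · exact hI a ha b hb hab
      have h2 := hImax _ this
      rw [Finset.card_insert_of_notMem hx] at h2
      omega
    have hxu : x ∈ nonOut A u := mem_nonOut.2 ⟨fun h' => hx (h' ▸ hu), hux⟩
    have hBx : nonOut A x ⊆ univ \ I := by
      intro y hy
      simp only [mem_sdiff, mem_univ, true_and]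
      exact fun hyI => hcon y hyI hy
    have hdis : Disjoint (nonOut A u) (nonOut A x) := by
      rw [Finset.disjoint_left]
      intro y hy hy'
      have hyx : y ≠ x := (mem_nonOut.1 hy').1
      exact (mem_nonOut.1 hy').2 (nonOut_biclique hloop htriple u x hxu y hy hyx.symm)
    have h3 : (nonOut A u ∪ nonOut A x).card ≤ (univ \ I).card :=
      Finset.card_le_card (Finset.union_subset (hBI u hu) hBx)
    rw [Finset.card_union_of_disjoint hdis, hJ] at h3
    have := hB u
    have := hB x
    have := hα2 x
    omega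
  -- many non-out-neighbours in I
  have hmany : ∀ x, x ∉ I → 2 * n + I.card ≤ (nonOut A x ∩ I).card + n + 2 * Δ + 2 := by
    intro x hx
    obtain ⟨u, hu, hux⟩ := hne x hx
    have hdis : Disjoint (nonOut A u) (nonOut A x \ I) := by
      rw [Finset.disjoint_left]
      intro y hy hy'
      rw [mem_sdiff] at hy'
      have hyu : u ≠ y := fun h => hy'.2 (h ▸ hu)
      exact (mem_nonOut.1 hy).2 (nonOut_biclique hloop htriple x u hux y hy'.1 hyu)
    have h3 : (nonOut A u ∪ (nonOut A x \ I)).card ≤ (univ \ I).card := by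
      apply Finset.card_le_card
      apply Finset.union_subset (hBI u hu)
      intro y hy
      rw [mem_sdiff] at hy ⊢
      exact ⟨mem_univ _, hy.2⟩
    rw [Finset.card_union_of_disjoint hdis, hJ] at h3
    have h4 := Finset.card_sdiff_add_card_inter (nonOut A x) I
    have := hB u
    have := hB x
    omega
  have hdis : Disjoint (nonOut A w ∩ I) (nonOut A w' ∩ I) := by
    rw [Finset.disjoint_left]
    intro u hu hu'
    rw [mem_inter] at hu hu'
    have hw'w : w' ∈ nonOut A w := mem_nonOut.2 ⟨fun h => hww' h.symm, hnot⟩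
    have huw' : w' ≠ u := fun h => hwI' (h ▸ hu.2)
    exact (mem_nonOut.1 hu'.1).2 (nonOut_biclique hloop htriple w w' hw'w u hu.1 huw')
  have h5 : ((nonOut A w ∩ I) ∪ (nonOut A w' ∩ I)).card ≤ I.card := by
    apply Finset.card_le_card
    exact Finset.union_subset Finset.inter_subset_right Finset.inter_subset_right
  rw [Finset.card_union_of_disjoint hdis] at h5
  have h6 := hmany w hwI
  have h7 := hmany w' hwI'
  have h8 := hB w
  have h9 := hα2 w
  omega

end core


section parts

variable {V : Type*} [Fintype V] [DecidableEq V] {A : V → V → Prop}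

/-- The union of bicliques chosen in pairwise completely joined parts. -/
theorem biclique_biUnion {V : Type*} [DecidableEq V] {A : V → V → Prop} {ι : Type*} [Fintype ι] [DecidableEq ι] (hloop : ∀ v, ¬ A v v)
    (P : ι → Finset V) (hcross : ∀ i j, i ≠ j → ∀ u ∈ P i, ∀ v ∈ P j, A u v)
    (Q : ι → Finset V) (hQ : ∀ i, Q i ⊆ P i) (hQb : ∀ i, IsBiclique A (Q i)) (T : Finset ι) :
    IsBiclique A (T.biUnion Q) ∧ (T.biUnion Q).card = ∑ i ∈ T, (Q i).card := by
  constructor
  · intro u hu v hv huv
    rw [mem_biUnion] at hu hv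
    obtain ⟨i, hi, hui⟩ := hu
    obtain ⟨j, hj, hvj⟩ := hv
    by_cases hij : i = j
    · subst hij
      exact hQb i u hui v hvj huv
    · exact hcross i j hij u (hQ i hui) v (hQ j hvj)
  · apply Finset.card_biUnion
    intro i hi j hj hij
    refine Finset.disjoint_left.2 ?_
    intro u hu hu'
    exact hloop u (hcross i j hij u (hQ i hu) u (hQ j hu'))

theorem small_core (Δ : ℕ) (hΔ : 9 ≤ Δ) (hloop : ∀ v, ¬ A v v)
    (hout : ∀ v, {u | A v u}.ncard ≤ Δ)
    (hbic : ∀ K : Finset V, IsBiclique A K → K.card ≤ Δ - 1)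
    (hH : ¬ ContainsH A Δ)
    (htriple : ∀ a b c : V, a ≠ b → b ≠ c → c ≠ a → ¬ AcyclicOn A {a, b, c})
    (hn : Fintype.card V ≤ 2 * Δ - 2)
    (S : Finset V) {ι : Type*} [Fintype ι] [DecidableEq ι] (P : ι → Finset V)
    (hne : ∀ i, (P i).Nonempty)
    (hcross : ∀ i j, i ≠ j → ∀ u ∈ P i, ∀ v ∈ P j, A u v)
    (hcover : (univ : Finset ι).biUnion P = univ \ S)
    (J : Finset ι) (hJ : ∀ i ∈ J, Odd (P i).card)
    (hm : S.card + (2 * Δ - Fintype.card V) ≤ J.card) : False := by
  classical
  have hout' : ∀ v, (univ.filter (fun u => A v u)).card ≤ Δ := by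
    intro v
    have := hout v
    rwa [Set.ncard_eq_toFinset_card', Set.toFinset_ofPred] at this
  set n := Fintype.card V with hndef
  have hSn : S.card ≤ n := Finset.card_le_univ S
  set T := n - S.card with hT
  have hsum : ∑ i, (P i).card = T := by
    rw [hT, hndef, ← Finset.card_univ, ← Finset.card_sdiff_of_subset (Finset.subset_univ S), ← hcover]
    symm
    apply Finset.card_biUnion
    intro i hi j hj hij
    refine Finset.disjoint_left.2 ?_
    intro u hu hu'
    exact hloop u (hcross i j hij u hu u hu')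
  have hpos : ∀ i, 1 ≤ (P i).card := fun i => (hne i).card_pos
  -- out-degree inequality
  have hdeg : ∀ i, ∀ v ∈ P i, T + (P i ∩ univ.filter (fun u => A v u)).card ≤ (P i).card + Δ := by
    intro i v hv
    have h1 : (∑ j ∈ univ.erase i, (P j).card) + (P i ∩ univ.filter (fun u => A v u)).card ≤ Δ := by
      have h2 : ((univ.erase i).biUnion P).card = ∑ j ∈ univ.erase i, (P j).card := by
        apply Finset.card_biUnion
        intro j hj k hk hjk
        refine Finset.disjoint_left.2 ?_
        intro u hu hu'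
        exact hloop u (hcross j k hjk u hu u hu')
      rw [← h2, ← Finset.card_union_of_disjoint]
      · refine le_trans (Finset.card_le_card ?_) (hout' v)
        intro u hu
        rw [mem_union, mem_biUnion, mem_inter] at hu
        rcases hu with ⟨j, hj, huj⟩ | hu
        · simp only [mem_filter, mem_univ, true_and]
          exact hcross i j (Finset.ne_of_mem_erase hj).symm v hv u huj
        · exact hu.2
      · rw [Finset.disjoint_left]
        intro u hu hu'
        rw [mem_biUnion] at hu
        obtain ⟨j, hj, huj⟩ := hu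
        rw [mem_inter] at hu'
        exact hloop u (hcross j i (Finset.ne_of_mem_erase hj) u huj u hu'.1)
    have h3 : ∑ j ∈ univ.erase i, (P j).card + (P i).card = T := by
      rw [← hsum]
      exact Finset.sum_erase_add _ _ (mem_univ i)
    omega
  -- big bicliques in each part
  have hbig : ∀ i, ∃ Q : Finset V, Q ⊆ P i ∧ IsBiclique A Q ∧ 1 ≤ Q.card ∧ T ≤ Q.card + 1 + Δ := by
    intro i
    obtain ⟨v, hv⟩ := hne i
    by_cases hsmall : T ≤ 2 + Δ
    · refine ⟨{v}, by simpa using hv, ?_, by simp, by simp; omega⟩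
      intro a ha b hb hab
      rw [mem_singleton] at ha hb
      exact absurd (ha.trans hb.symm) hab
    · have h1 := hdeg i v hv
      refine ⟨P i ∩ nonOut A v, Finset.inter_subset_left, ?_, ?_⟩
      · intro a ha b hb hab
        exact nonOut_biclique hloop htriple v a (mem_inter.1 ha).2 b (mem_inter.1 hb).2 hab
      · have h2 : P i ⊆ (P i ∩ nonOut A v) ∪ (P i ∩ univ.filter (fun u => A v u)) ∪ {v} := by
          intro u hu
          simp only [mem_union, mem_inter, mem_nonOut, mem_filter, mem_univ, true_and,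
            mem_singleton, hu]
          tauto
        have h3 := Finset.card_le_card h2
        have h4 := Finset.card_union_le ((P i ∩ nonOut A v) ∪ (P i ∩ univ.filter (fun u => A v u))) {v}
        have h5 := Finset.card_union_le (P i ∩ nonOut A v) (P i ∩ univ.filter (fun u => A v u))
        rw [Finset.card_singleton] at h4
        omega
  choose Q hQs hQb hQ1 hQ2 using hbig
  obtain ⟨hU, hUc⟩ := biclique_biUnion hloop P hcross Q hQs hQb univ
  have hUle := hbic _ hU
  rw [hUc] at hUle
  have hM1 : Fintype.card ι ≤ Δ - 1 := by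
    refine le_trans ?_ hUle
    have : ∑ i : ι, 1 ≤ ∑ i, (Q i).card := Finset.sum_le_sum (fun i _ => hQ1 i)
    simpa using this
  have hJM : J.card ≤ Fintype.card ι := Finset.card_le_univ J
  have hTn : T + S.card = n := by omega
  by_cases hone : ∃ i0, (P i0).card = 1
  · obtain ⟨i0, hi0⟩ := hone
    obtain ⟨v, hv⟩ := hne i0
    have h1 := hdeg i0 v hv
    have hT1 : T = Δ + 1 := by omega
    have hJc : J.card = Δ - 1 := by omega
    have hMc : Fintype.card ι = Δ - 1 := by omega
    have hJu : J = univ := by
      apply Finset.eq_univ_of_card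
      omega
    -- some part has at least three elements
    obtain ⟨i1, hi1⟩ : ∃ i1, (P i1).card ≠ 1 := by
      by_contra hc
      push Not at hc
      have : ∑ i, (P i).card = Fintype.card ι := by
        rw [Finset.sum_congr rfl (fun i _ => hc i)]
        simp
      omega
    have hi1odd : Odd (P i1).card := hJ i1 (by rw [hJu]; exact mem_univ _)
    have hi1three : 3 ≤ (P i1).card := by
      obtain ⟨k, hk⟩ := hi1odd
      omega
    have hsplit : ∑ j ∈ univ.erase i1, (P j).card + (P i1).card = T := by
      rw [← hsum]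
      exact Finset.sum_erase_add _ _ (mem_univ i1)
    have hcardE : (univ.erase i1 : Finset ι).card = Δ - 2 := by
      rw [Finset.card_erase_of_mem (mem_univ _), Finset.card_univ]
      omega
    have hlow : ∑ j ∈ univ.erase i1, 1 ≤ ∑ j ∈ univ.erase i1, (P j).card :=
      Finset.sum_le_sum (fun i _ => hpos i)
    have hlow' : (univ.erase i1 : Finset ι).card ≤ ∑ j ∈ univ.erase i1, (P j).card := by
      simpa using hlow
    have hthree : (P i1).card = 3 := by omega
    have hsumE : ∑ j ∈ univ.erase i1, (P j).card = Δ - 2 := by omega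
    have hones : ∀ j, j ≠ i1 → (P j).card = 1 := by
      have h6 : ∑ j ∈ univ.erase i1, 1 = ∑ j ∈ univ.erase i1, (P j).card := by
        rw [hsumE]
        simp only [Finset.sum_const, smul_eq_mul, mul_one]
        exact hcardE
      have h7 := (Finset.sum_eq_sum_iff_of_le (s := univ.erase i1) (f := fun _ => 1)
        (g := fun j => (P j).card) (fun i _ => hpos i)).1 h6
      intro j hj
      exact (h7 j (Finset.mem_erase.2 ⟨hj, mem_univ _⟩)).symm
    obtain ⟨a, b, c, hab, hac, hbc, hP⟩ := Finset.card_eq_three.1 hthree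
    have haP : a ∈ P i1 := by rw [hP]; simp
    have hbP : b ∈ P i1 := by rw [hP]; simp
    have hcP : c ∈ P i1 := by rw [hP]; simp
    -- the biclique formed by the singletons
    obtain ⟨K, hKdef⟩ : ∃ K, K = (univ.erase i1).biUnion P := ⟨_, rfl⟩
    have hQ' : ∀ i, i ≠ i1 → IsBiclique A (P i) := by
      intro i hi u hu v hv huv
      obtain ⟨x, hx⟩ := Finset.card_eq_one.1 (hones i hi)
      rw [hx, mem_singleton] at hu hv
      exact absurd (hu.trans hv.symm) huv
    have hKb : IsBiclique A K := by
      intro u hu v hv huv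
      rw [hKdef, mem_biUnion] at hu hv
      obtain ⟨i, hi, hui⟩ := hu
      obtain ⟨j, hj, hvj⟩ := hv
      by_cases hij : i = j
      · subst hij
        exact hQ' i (Finset.ne_of_mem_erase hi) u hui v hvj huv
      · exact hcross i j hij u hui v hvj
    have hKc : K.card = Δ - 2 := by
      rw [hKdef, ← hsumE]
      apply Finset.card_biUnion
      intro j hj k hk hjk
      refine Finset.disjoint_left.2 ?_
      intro u hu hu'
      exact hloop u (hcross j k hjk u hu u hu')
    have hKP : ∀ x ∈ P i1, ∀ y ∈ K, (A x y ∧ A y x) := by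
      intro x hx y hy
      rw [hKdef, mem_biUnion] at hy
      obtain ⟨j, hj, hyj⟩ := hy
      have hj' := Finset.ne_of_mem_erase hj
      exact ⟨hcross i1 j hj'.symm x hx y hyj, hcross j i1 hj' y hyj x hx⟩
    have hnotK : ∀ x ∈ P i1, x ∉ K := by
      intro x hx hxK
      exact hloop x (hKP x hx x hxK).1
    -- two digon-joined vertices of the triple give a biclique of size Δ
    have hdig : ∀ x ∈ P i1, ∀ y ∈ P i1, x ≠ y → A x y → A y x → False := by
      intro x hx y hy hxy h1 h2
      have hb : IsBiclique A (insert x (insert y K)) := by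
        intro u hu v hv huv
        rw [mem_insert, mem_insert] at hu hv
        rcases hu with rfl | rfl | hu <;> rcases hv with rfl | rfl | hv
        · exact absurd rfl huv
        · exact h1
        · exact (hKP _ hx _ hv).1
        · exact h2
        · exact absurd rfl huv
        · exact (hKP _ hy _ hv).1
        · exact (hKP _ hx _ hu).2
        · exact (hKP _ hy _ hu).2
        · exact hKb u hu v hv huv
      have h3 := hbic _ hb
      rw [Finset.card_insert_of_notMem, Finset.card_insert_of_notMem (hnotK y hy), hKc] at h3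
      · omega
      · rw [mem_insert]
        rintro (h | h)
        · exact hxy h
        · exact hnotK x hx h
    rcases triple_cases hloop htriple hab hbc hac.symm with h | h | h | h | h
    · exact hdig a haP b hbP hab h.1 h.2
    · exact hdig b hbP c hcP hbc h.1 h.2
    · exact hdig c hcP a haP hac.symm h.1 h.2
    · exact hH ⟨a, b, c, K, hab, hbc, hac.symm, hnotK a haP, hnotK b hbP, hnotK c hcP, hKc, hKb,
        h.1, h.2.1, h.2.2, fun y hy => ⟨hKP a haP y hy, hKP b hbP y hy, hKP c hcP y hy⟩⟩
    · exact hH ⟨b, a, c, K, hab.symm, hac, hbc.symm, hnotK b hbP, hnotK a haP, hnotK c hcP, hKc, hKb,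
        h.1, h.2.2, h.2.1, fun y hy => ⟨hKP b hbP y hy, hKP a haP y hy, hKP c hcP y hy⟩⟩
  · push Not at hone
    have hJ3 : ∀ i ∈ J, 3 ≤ (P i).card := by
      intro i hi
      obtain ⟨k, hk⟩ := hJ i hi
      have := hone i
      omega
    have h1 : 3 * J.card ≤ T := by
      rw [← hsum]
      calc 3 * J.card = ∑ i ∈ J, 3 := by simp [mul_comm]
        _ ≤ ∑ i ∈ J, (P i).card := Finset.sum_le_sum hJ3
        _ ≤ ∑ i, (P i).card := Finset.sum_le_sum_of_subset (Finset.subset_univ _)
    have h2 : J.card * (T - 1 - Δ) ≤ Δ - 1 := by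
      refine le_trans ?_ hUle
      calc J.card * (T - 1 - Δ) = ∑ i ∈ J, (T - 1 - Δ) := by simp
        _ ≤ ∑ i ∈ J, (Q i).card := Finset.sum_le_sum (fun i _ => by have := hQ2 i; omega)
        _ ≤ ∑ i, (Q i).card := Finset.sum_le_sum_of_subset (Finset.subset_univ _)
    obtain ⟨x, hx⟩ : ∃ x, x = 2 * Δ - T := ⟨_, rfl⟩
    have hx2 : 2 ≤ x := by omega
    have hxJ : x ≤ J.card := by omega
    have hxT : T = 2 * Δ - x := by omega
    have h3 : 3 * x ≤ 2 * Δ - x := by omega
    have h4 : x * (Δ - x - 1) ≤ Δ - 1 := by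
      refine le_trans (Nat.mul_le_mul hxJ ?_) h2
      omega
    obtain ⟨y, hy⟩ : ∃ y, Δ = 2 * x + y := ⟨Δ - 2 * x, by omega⟩
    have h5 : Δ - x - 1 = x + y - 1 := by omega
    rw [h5, hy] at h4
    obtain ⟨z, hz⟩ : ∃ z, x = z + 2 := ⟨x - 2, by omega⟩
    subst hz
    have h6 : z + 2 + y - 1 = z + y + 1 := by omega
    have h7 : 2 * (z + 2) + y - 1 = 2 * z + y + 3 := by omega
    rw [h6, h7] at h4
    have h8 : 9 ≤ 2 * (z + 2) + y := by omega
    nlinarith

end parts


section matching

variable {V : Type*} {A : V → V → Prop}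

/-- Pairs of `V` that are not joined in both directions, together with `r` extra vertices joined to
everything. -/
def auxGraph (A : V → V → Prop) (r : ℕ) : SimpleGraph (V ⊕ Fin r) where
  Adj x y := x ≠ y ∧ ∀ u v, x = Sum.inl u → y = Sum.inl v → ¬ (A u v ∧ A v u)
  symm := ⟨by
    rintro x y ⟨h1, h2⟩
    refine ⟨h1.symm, ?_⟩
    intro u v hu hv h
    exact h2 v u hv hu ⟨h.2, h.1⟩⟩
  loopless := ⟨fun x h => h.1 rfl⟩

/-- A perfect matching of the auxiliary graph gives a colouring with classes of size at most two. -/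
theorem colouring_of_matching [Fintype V] {r m : ℕ} (hloop : ∀ v, ¬ A v v)
    (hcard : Fintype.card V + r = 2 * m) (M : (auxGraph A r).Subgraph) (hM : M.IsPerfectMatching) :
    ∃ φ : V → Fin m, ∀ i, AcyclicOn A {v | φ v = i} := by
  classical
  have hex : ∀ w, ∃! w', M.Adj w w' := SimpleGraph.Subgraph.isPerfectMatching_iff.1 hM
  choose σ hσ hσu using hex
  simp only at hσ hσu
  have hσσ : ∀ w, σ (σ w) = w := fun w => ((hσu (σ w)) w (hσ w).symm).symm
  have hσne : ∀ w, σ w ≠ w := fun w h => by
    have h1 := hσ w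
    rw [h] at h1
    exact M.loopless.irrefl _ h1
  -- the set of edges
  set g : V ⊕ Fin r → Sym2 (V ⊕ Fin r) := fun w => s(w, σ w) with hg
  have hfib : ∀ e ∈ univ.image g, (univ.filter (fun w => g w = e)).card = 2 := by
    intro e he
    rw [mem_image] at he
    obtain ⟨w, -, rfl⟩ := he
    have : univ.filter (fun w' => g w' = g w) = {w, σ w} := by
      ext w'
      simp only [mem_filter, mem_univ, true_and, mem_insert, mem_singleton, hg, Sym2.eq_iff]
      constructor
      · rintro (h | h)
        · exact Or.inl h.1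
        · exact Or.inr h.1
      · rintro (h | h)
        · exact Or.inl ⟨h, by rw [h]⟩
        · exact Or.inr ⟨h, by rw [h, hσσ]⟩
    rw [this, Finset.card_pair (hσne w).symm]
  have hcount : (univ.image g).card = m := by
    have h1 := Finset.card_eq_sum_card_image g (univ : Finset (V ⊕ Fin r))
    rw [Finset.sum_congr rfl hfib] at h1
    simp only [Finset.sum_const, smul_eq_mul, Finset.card_univ, Fintype.card_sum,
      Fintype.card_fin] at h1
    omega
  let eqv : {e // e ∈ univ.image g} ≃ Fin m := Finset.equivFinOfCardEq hcount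
  refine ⟨fun v => eqv ⟨g (Sum.inl v), Finset.mem_image_of_mem g (mem_univ _)⟩, ?_⟩
  intro i
  -- two elements of a class are matched
  have hpair : ∀ u v : V, eqv ⟨g (Sum.inl u), Finset.mem_image_of_mem g (mem_univ _)⟩ = i →
      eqv ⟨g (Sum.inl v), Finset.mem_image_of_mem g (mem_univ _)⟩ = i → u ≠ v →
      Sum.inl v = σ (Sum.inl u) := by
    intro u v hu hv huv
    have h1 := eqv.injective (hu.trans hv.symm)
    rw [Subtype.mk.injEq] at h1
    simp only [hg, Sym2.eq_iff] at h1
    rcases h1 with h1 | h1
    · exact absurd (Sum.inl_injective h1.1) huv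
    · exact h1.2.symm
  by_cases hex2 : ∃ u v : V, eqv ⟨g (Sum.inl u), Finset.mem_image_of_mem g (mem_univ _)⟩ = i ∧
      eqv ⟨g (Sum.inl v), Finset.mem_image_of_mem g (mem_univ _)⟩ = i ∧ u ≠ v
  · obtain ⟨u, v, hu, hv, huv⟩ := hex2
    have huniq : ∀ w : V, eqv ⟨g (Sum.inl w), Finset.mem_image_of_mem g (mem_univ _)⟩ = i →
        w = u ∨ w = v := by
      intro w hw
      by_cases hwu : w = u
      · exact Or.inl hwu
      · right
        have h1 := hpair u w hu hw (fun h => hwu h.symm)
        have h2 := hpair u v hu hv huv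
        exact Sum.inl_injective (h1.trans h2.symm)
    have hnd : ¬ (A u v ∧ A v u) := by
      have h1 : (auxGraph A r).Adj (Sum.inl u) (σ (Sum.inl u)) := M.adj_sub (hσ _)
      rw [← hpair u v hu hv huv] at h1
      exact h1.2 u v rfl rfl
    by_cases huv2 : A u v
    · have hvu : ¬ A v u := fun h => hnd ⟨huv2, h⟩
      apply acyclicOn_of_rank (fun x => if x = v then 0 else 1)
      intro x hx y hy hxy
      rcases huniq x hx with rfl | rfl <;> rcases huniq y hy with rfl | rfl
      · exact absurd hxy (hloop _)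
      · simp [huv]
      · exact absurd hxy hvu
      · exact absurd hxy (hloop _)
    · apply acyclicOn_of_rank (fun x => if x = u then 0 else 1)
      intro x hx y hy hxy
      rcases huniq x hx with rfl | rfl <;> rcases huniq y hy with rfl | rfl
      · exact absurd hxy (hloop _)
      · exact absurd hxy huv2
      · simp [huv.symm]
      · exact absurd hxy (hloop _)
  · push Not at hex2
    apply acyclicOn_of_rank (fun _ => 0)
    intro x hx y hy hxy
    have h1 := hex2 x y hx hy
    rw [h1] at hxy
    exact absurd hxy (hloop _)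

end matching


section violator

universe w0

variable {V : Type w0} [Fintype V] {A : V → V → Prop}

open Classical in
/-- From a set violating the condition of Tutte in the auxiliary graph we get a partition into
completely joined parts, many of them odd. -/
theorem parts_of_violator {r m : ℕ} (hcard : Fintype.card V + r = 2 * m)
    (u : Set (V ⊕ Fin r)) (hu : (auxGraph A r).IsTutteViolator u) :
    ∃ (S : Finset V) (ι : Type w0) (_ : Fintype ι) (P : ι → Finset V),
      (∀ i, (P i).Nonempty) ∧ (∀ i j, i ≠ j → ∀ x ∈ P i, ∀ y ∈ P j, A x y) ∧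
      (univ : Finset ι).biUnion P = univ \ S ∧
      ∃ J : Finset ι, (∀ i ∈ J, Odd (P i).card) ∧ S.card + r + 2 ≤ J.card := by
  classical
  unfold SimpleGraph.IsTutteViolator at hu
  set H := ((⊤ : (auxGraph A r).Subgraph).deleteVerts u).coe with hHdef
  have hverts : ∀ w, w ∈ ((⊤ : (auxGraph A r).Subgraph).deleteVerts u).verts ↔ w ∉ u := by
    intro w
    simp
  have hadj : ∀ x y : ((⊤ : (auxGraph A r).Subgraph).deleteVerts u).verts,
      H.Adj x y ↔ (auxGraph A r).Adj x y := by
    intro x y
    rw [hHdef, SimpleGraph.Subgraph.coe_adj, SimpleGraph.Subgraph.deleteVerts_adj]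
    have hx := (hverts x).1 x.2
    have hy := (hverts y).1 y.2
    simp [hx, hy]
  -- parity
  have hpar : u.ncard + 2 ≤ H.oddComponents.ncard := by
    have h1 := SimpleGraph.odd_ncard_oddComponents H
    have h2 : Nat.card ((⊤ : (auxGraph A r).Subgraph).deleteVerts u).verts + u.ncard = 2 * m := by
      have h3 : ((⊤ : (auxGraph A r).Subgraph).deleteVerts u).verts = uᶜ := by
        ext w
        rw [hverts w]
        rfl
      rw [h3, Nat.card_coe_set_eq]
      have h4 := Set.ncard_add_ncard_compl u
      rw [Nat.card_eq_fintype_card, Fintype.card_sum, Fintype.card_fin] at h4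
      omega
    by_contra hcon
    have h5 : H.oddComponents.ncard = u.ncard + 1 := by omega
    rw [h5] at h1
    rw [Nat.odd_iff, Nat.odd_iff] at h1
    omega
  -- every extra vertex is deleted
  have hext : ∀ j : Fin r, Sum.inr j ∈ u := by
    intro j
    by_contra hj
    have hsub : H.oddComponents ⊆ {H.connectedComponentMk ⟨Sum.inr j, (hverts _).2 hj⟩} := by
      intro K hK
      rw [Set.mem_singleton_iff]
      induction K using SimpleGraph.ConnectedComponent.ind with
      | h x =>
        by_cases hx : x = ⟨Sum.inr j, (hverts _).2 hj⟩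
        · rw [hx]
        · apply SimpleGraph.ConnectedComponent.sound
          apply SimpleGraph.Adj.reachable
          rw [hadj]
          refine ⟨fun h => hx (Subtype.ext h), ?_⟩
          intro a b ha hb
          simp at hb
    have h1 := Set.ncard_le_ncard hsub (Set.finite_singleton _)
    rw [Set.ncard_singleton] at h1
    omega
  have : Fintype H.ConnectedComponent := Fintype.ofFinite _
  set P : H.ConnectedComponent → Finset V := fun K =>
    univ.filter (fun v => ∃ h : Sum.inl v ∉ u,
      H.connectedComponentMk ⟨Sum.inl v, (hverts _).2 h⟩ = K) with hPdef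
  have hmemP : ∀ K v, v ∈ P K ↔ ∃ h : Sum.inl v ∉ u,
      H.connectedComponentMk ⟨Sum.inl v, (hverts _).2 h⟩ = K := by
    intro K v
    simp [hPdef]
  have hrep : ∀ x : ((⊤ : (auxGraph A r).Subgraph).deleteVerts u).verts,
      ∃ v, ∃ h : Sum.inl v ∉ u, x = ⟨Sum.inl v, (hverts _).2 h⟩ := by
    rintro ⟨w, hw⟩
    rcases w with v | j
    · exact ⟨v, (hverts _).1 hw, rfl⟩
    · exact absurd (hext j) ((hverts _).1 hw)
  have hcardP : ∀ K, (P K).card = K.supp.ncard := by
    intro K
    have h1 : K.supp = (fun v : V => if h : Sum.inl v ∉ u then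
        (⟨Sum.inl v, (hverts _).2 h⟩ : ((⊤ : (auxGraph A r).Subgraph).deleteVerts u).verts)
        else (hmemP K v).casesOn (fun _ _ => Classical.choice ⟨K.out⟩)) '' (P K : Set V) := by
      ext x
      rw [SimpleGraph.ConnectedComponent.mem_supp_iff, Set.mem_image]
      constructor
      · intro hx
        obtain ⟨v, hv, rfl⟩ := hrep x
        refine ⟨v, (hmemP K v).2 ⟨hv, hx⟩, ?_⟩
        rw [dif_pos hv]
      · rintro ⟨v, hv, rfl⟩
        obtain ⟨h, hK⟩ := (hmemP K v).1 hv
        rw [dif_pos h]
        exact hK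
    rw [h1, Set.InjOn.ncard_image, Set.ncard_coe_finset]
    intro v hv w hw hvw
    obtain ⟨h, hK⟩ := (hmemP K v).1 hv
    obtain ⟨h', hK'⟩ := (hmemP K w).1 hw
    simp only [dif_pos h, dif_pos h'] at hvw
    exact Sum.inl_injective (congrArg Subtype.val hvw)
  refine ⟨univ.filter (fun v => Sum.inl v ∈ u), H.ConnectedComponent, inferInstance, P, ?_, ?_, ?_, ?_⟩
  · intro K
    induction K using SimpleGraph.ConnectedComponent.ind with
    | h x =>
      obtain ⟨v, hv, rfl⟩ := hrep x
      exact ⟨v, (hmemP _ v).2 ⟨hv, rfl⟩⟩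
  · intro K L hKL x hx y hy
    obtain ⟨h, hK⟩ := (hmemP K x).1 hx
    obtain ⟨h', hL⟩ := (hmemP L y).1 hy
    by_contra hxy
    apply hKL
    rw [← hK, ← hL]
    apply SimpleGraph.ConnectedComponent.sound
    by_cases hxy' : x = y
    · subst hxy'
      exact SimpleGraph.Reachable.refl _
    apply SimpleGraph.Adj.reachable
    rw [hadj]
    refine ⟨fun h => hxy' (Sum.inl_injective h), ?_⟩
    intro a b ha hb hab
    have ha' := Sum.inl_injective ha
    have hb' := Sum.inl_injective hb
    rw [ha', hb'] at hxy
    exact hxy hab.1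
  · ext v
    simp only [mem_biUnion, mem_univ, true_and, mem_sdiff, mem_filter]
    constructor
    · rintro ⟨K, hK⟩
      exact ((hmemP K v).1 hK).1
    · intro h
      exact ⟨_, (hmemP _ v).2 ⟨h, rfl⟩⟩
  · refine ⟨univ.filter (fun K => K ∈ H.oddComponents), ?_, ?_⟩
    · intro K hK
      simp only [mem_filter, mem_univ, true_and] at hK
      rw [hcardP K]
      exact hK
    · have h1 : (univ.filter (fun K => K ∈ H.oddComponents)).card = H.oddComponents.ncard := by
        rw [← Set.ncard_coe_finset]
        congr 1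
        ext K
        simp
      rw [h1]
      refine le_trans ?_ hpar
      have h2 : u = (Sum.inl '' ((univ.filter (fun v => Sum.inl v ∈ u) : Finset V) : Set V)) ∪
          (Sum.inr '' (Set.univ : Set (Fin r))) := by
        ext w
        rcases w with v | j
        · simp
        · simp [hext j]
      have h3 : u.ncard = (univ.filter (fun v => Sum.inl v ∈ u) : Finset V).card + r := by
        conv_lhs => rw [h2]
        rw [Set.ncard_union_eq, Set.ncard_image_of_injective _ Sum.inl_injective,
          Set.ncard_image_of_injective _ Sum.inr_injective, Set.ncard_coe_finset, Set.ncard_univ,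
          Nat.card_eq_fintype_card, Fintype.card_fin]
        rw [Set.disjoint_left]
        rintro w ⟨v, -, rfl⟩ ⟨j, -, hj⟩
        simp at hj
      omega

end violator

/-- **Borodin-Kostochka type bound for digraphs without acyclic sets of three vertices.** -/
theorem result (Δ : ℕ) (hΔ : 9 ≤ Δ) {V : Type*} [Fintype V] (A : V → V → Prop)
    (hloop : ∀ v, ¬ A v v)
    (hout : ∀ v, {u | A v u}.ncard ≤ Δ)
    (hbic : ∀ K : Finset V, IsBiclique A K → K.card ≤ Δ - 1)
    (hH : ¬ ContainsH A Δ)
    (htriple : ∀ a b c : V, a ≠ b → b ≠ c → c ≠ a → ¬ AcyclicOn A {a, b, c}) :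
    ∃ φ : V → Fin (Δ - 1), ∀ i, AcyclicOn A {v | φ v = i} := by
  classical
  have hn := large_case Δ hΔ hloop hout hbic htriple
  obtain ⟨r, hr⟩ : ∃ r, Fintype.card V + r = 2 * (Δ - 1) := ⟨2 * (Δ - 1) - Fintype.card V, by omega⟩
  by_cases hM : ∃ M : (auxGraph A r).Subgraph, M.IsPerfectMatching
  · obtain ⟨M, hM⟩ := hM
    exact colouring_of_matching hloop hr M hM
  · exfalso
    rw [SimpleGraph.tutte] at hM
    push Not at hM
    obtain ⟨u, hu⟩ := hM
    obtain ⟨S, ι, hι, P, hne, hcross, hcover, J, hJ, hm⟩ := parts_of_violator hr u hu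
    refine small_core Δ hΔ hloop hout hbic hH htriple hn S P hne hcross ?_ J hJ ?_
    · convert hcover
    · omega

end Pool.Agent.Results.MP_5e0a3c_co.NoAcyclicTriple
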