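import Pool.Agent.BKR.Iter

namespace Pool.Agent.Results.MP_5e0a3c_co.ReductionToNine

universe u

/-- The subdigraph induced by `S` has no directed cycle: no vertex can be reached from itself by
a nonempty directed walk inside `S`. -/
def AcyclicOn {V : Type*} (A : V → V → Prop) (S : Set V) : Prop :=
  ∀ v, ¬ Relation.TransGen (fun x y => x ∈ S ∧ y ∈ S ∧ A x y) v v

/-- `K` induces a complete digraph. -/
def IsBiclique {V : Type*} (A : V → V → Prop) (K : Finset V) : Prop :=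
  ∀ u ∈ K, ∀ v ∈ K, u ≠ v → A u v

/-- The digraph contains `H_k`: a directed triangle `a → b → c → a` and a disjoint complete
digraph `K` on `k - 2` vertices, with all arcs in both directions between them. -/
def ContainsH {V : Type*} (A : V → V → Prop) (k : ℕ) : Prop :=
  ∃ (a b c : V) (K : Finset V), a ≠ b ∧ b ≠ c ∧ c ≠ a ∧ a ∉ K ∧ b ∉ K ∧ c ∉ K ∧
    K.card = k - 2 ∧ IsBiclique A K ∧ A a b ∧ A b c ∧ A c a ∧
    ∀ y ∈ K, (A a y ∧ A y a) ∧ (A b y ∧ A y b) ∧ (A c y ∧ A y c)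

/-- The induced subdigraph on `U`, with vertex type `U`. -/
def Ind {V : Type*} (A : V → V → Prop) (U : Set V) : ↥U → ↥U → Prop :=
  fun x y => A x y

/-- Q1 for one value of `Δ`: every finite loopless digraph with maximum out-degree `Δ`, all
bicliques with at most `Δ - 1` vertices and no `H_Δ` has a dicolouring with `Δ - 1` colours. -/
def Q1At (Δ : ℕ) : Prop :=
  ∀ (V : Type) [Fintype V] (A : V → V → Prop), (∀ v, ¬ A v v) →
    (∀ v, {u | A v u}.ncard ≤ Δ) → (∃ v, {u | A v u}.ncard = Δ) →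
    (∀ K : Finset V, IsBiclique A K → K.card ≤ Δ - 1) → ¬ ContainsH A Δ →
    ∃ φ : V → Fin (Δ - 1), ∀ i, AcyclicOn A {v | φ v = i}

theorem result :
    -- the structure theorem
    (∀ (V : Type u) [Fintype V] (A : V → V → Prop) (m Δ : ℕ), 9 ≤ m → m ≤ Δ →
      (∀ v, ¬ A v v) → (∀ v, {u | A v u}.ncard ≤ Δ ∨ {u | A u v}.ncard ≤ Δ) →
      (∀ K : Finset V, IsBiclique A K → K.card ≤ Δ - 1) → ¬ ContainsH A Δ →
      ∃ (U : Set V) (φ : ↥Uᶜ → Fin (Δ - m)),
        (∀ i, AcyclicOn (Ind A Uᶜ) {v | φ v = i}) ∧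
        (∀ v : ↥U, ∀ i, (∃ u, φ u = i ∧ A v u) ∧ (∃ u, φ u = i ∧ A u v)) ∧
        (∀ v : ↥U, {u | Ind A U v u}.ncard + (Δ - m) ≤ {u | A v u}.ncard ∧
          {u | Ind A U u v}.ncard + (Δ - m) ≤ {u | A u v}.ncard) ∧
        (∀ K : Finset ↥U, IsBiclique (Ind A U) K → K.card ≤ m - 1) ∧
        ¬ ContainsH (Ind A U) m) ∧
    -- its consequence for Q1
    ((∀ Δ : ℕ, 9 ≤ Δ → Q1At Δ) ↔ Q1At 9) := by
  classical
  constructor
  · intro V _ A m Δ hm hmΔ hloop hdeg hω hH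
    obtain ⟨n, rfl⟩ := Nat.exists_eq_add_of_le hmΔ
    have hn : m + n - m = n := by omega
    obtain ⟨U, φ, h1, h2, h3, h4, h5⟩ := BKR.iterate_min hm n A hloop hdeg hω hH
    have hcol : ∀ i : Fin (m + n - m), i.1 < n := fun i => by have := i.2; omega
    refine ⟨U, fun v => ⟨φ v.1, by rw [hn]; exact h1 v.1 v.2⟩, ?_, ?_, ?_, ?_, h5⟩
    · intro i
      exact BKR.AcyclicOn.comap (A := A) (h2 i.1) Subtype.val
        (fun x hx => ⟨x.2, congrArg Fin.val hx⟩) (fun x _ y _ hxy => hxy)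
    · intro v i
      obtain ⟨⟨a, ha, hai, hva⟩, b, hb, hbi, hbv⟩ := h3 v.1 v.2 i.1 (hcol i)
      exact ⟨⟨⟨a, ha⟩, Fin.ext hai, hva⟩, ⟨b, hb⟩, Fin.ext hbi, hbv⟩
    · intro v
      rw [hn]
      exact ⟨BKR.count_drop (fun u => A v.1 u) (fun i hi => (h3 v.1 v.2 i hi).1),
        BKR.count_drop (fun u => A u v.1) (fun i hi => (h3 v.1 v.2 i hi).2)⟩
    · intro K hK
      have h6 := h4 (K.image Subtype.val) (by
        intro x hx y hy hxy
        obtain ⟨x', hx', rfl⟩ := Finset.mem_image.1 hx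
        obtain ⟨y', hy', rfl⟩ := Finset.mem_image.1 hy
        exact hK x' hx' y' hy' (fun h => hxy (by rw [h]))) (by
        intro x hx
        obtain ⟨x', hx', rfl⟩ := Finset.mem_image.1 hx
        exact x'.2)
      rwa [Finset.card_image_of_injective _ Subtype.val_injective] at h6
  · refine ⟨fun h => h 9 le_rfl, fun h Δ hΔ => ?_⟩
    have h1 : BKR.Q1At 9 := fun V _ A hloop hA hex => h V A hloop hA.1 hex hA.2.1 hA.2.2
    intro V _ A hloop hout hex hω hH
    exact BKR.Q1At.mono le_rfl hΔ h1 V A hloop ⟨hout, hω, hH⟩ hex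

end Pool.Agent.Results.MP_5e0a3c_co.ReductionToNine
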